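import Pool.Agent.R113.PT.Interval

/-! The condition characterizes slow dynamics. -/

set_option autoImplicit false

namespace Pool.Agent.R113.PT

open Set Function

variable {n : ℕ} {F : Set (Fin n) → Set (Fin n)}

theorem not_full_of_cond (h2 : 2 ≤ n) (hm : Monotone F) (hc : Cond F) :
    F^[(n - 1) ^ 2] {⟨0, by omega⟩} ≠ univ := by
  have hw := hc.w
  have h0 : F {⟨0, by omega⟩} = {⟨n - 1, by omega⟩} := by
    ext i
    rw [hw, mem_singleton_iff]
    constructor
    · intro h
      apply Fin.ext
      simp only at h ⊢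
      omega
    · intro h
      rw [h]
      right
      simp
  have hmi : ∀ r, Monotone F^[r] := fun r => hm.iterate r
  rcases Nat.lt_or_ge n 3 with hn | hn
  · have : n = 2 := by omega
    subst this
    have e : (2 - 1) ^ 2 = 1 := rfl
    rw [e, iterate_one, h0]
    intro h
    have : (⟨0, by omega⟩ : Fin 2) ∈ ({⟨2 - 1, by omega⟩} : Set (Fin 2)) := h ▸ mem_univ _
    rw [mem_singleton_iff] at this
    have := congrArg Fin.val this
    simp at this
  -- images of intervals which do not start at `1` or `2`
  have hstep : ∀ a l : ℕ, 3 ≤ a → a ≤ n - 1 → 1 ≤ l → l ≤ n - 1 →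
      F (cyc n a l) ⊆ cyc n (a - 1) l := by
    intro a l ha1 ha2 hl1 hl2 i hi
    rcases Nat.lt_or_ge l 2 with hl | hl
    · have hl' : l = 1 := by omega
      subst hl'
      have h3 : cyc n a 1 = {⟨a, by omega⟩} := by
        ext y
        rw [mem_cyc (by omega) (by omega), mem_singleton_iff]
        have := y.2
        constructor
        · intro h
          apply Fin.ext
          simp only
          omega
        · intro h
          rw [h]
          simp
      rw [h3, hw] at hi
      rw [mem_cyc (by omega) (by omega)]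
      simp only at hi
      have := i.2
      omega
    · rcases hc.c2 a l (by omega) ha2 hl hl2 i hi with h | h
      · exact h
      · omega
  have htwo : ∀ l : ℕ, 1 ≤ l → l ≤ n - 1 →
      F (cyc n 2 l) ⊆ cyc n 1 l ∪ {z | (z : ℕ) = 0 ∧ z ∈ F (cyc n 2 l)} := by
    intro l hl1 hl2 i hi
    rcases Nat.lt_or_ge l 2 with hl | hl
    · have hl' : l = 1 := by omega
      subst hl'
      left
      have h3 : cyc n 2 1 = {⟨2, by omega⟩} := by
        ext y
        rw [mem_cyc (by omega) (by omega), mem_singleton_iff]
        have := y.2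
        constructor
        · intro h
          apply Fin.ext
          simp only
          omega
        · intro h
          rw [h]
          simp
      rw [h3, hw] at hi
      rw [mem_cyc (by omega) (by omega)]
      simp only at hi
      have := i.2
      omega
    · rcases hc.c2 2 l le_rfl (by omega) hl hl2 i hi with h | h
      · left; exact h
      · right; exact ⟨h.2.2, hi⟩
  have hone : ∀ l : ℕ, 1 ≤ l → l ≤ n - 2 →
      F (F (cyc n 2 l)) ⊆ cyc n (n - 1) (l + 1) := by
    intro l hl1 hl2 i hi
    rcases Nat.lt_or_ge l 2 with hl | hl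
    · have hl' : l = 1 := by omega
      subst hl'
      have h3 : F (cyc n 2 1) ⊆ {⟨1, by omega⟩} := by
        have h3 : cyc n 2 1 = {⟨2, by omega⟩} := by
          ext y
          rw [mem_cyc (by omega) (by omega), mem_singleton_iff]
          have := y.2
          constructor
          · intro h
            apply Fin.ext
            simp only
            omega
          · intro h
            rw [h]
            simp
        rw [h3]
        intro y hy
        rw [hw] at hy
        rw [mem_singleton_iff]
        apply Fin.ext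
        simp only at hy ⊢
        omega
      have h4 := hm h3 hi
      rw [hw] at h4
      rw [mem_cyc (by omega) (by omega)]
      simp only at h4
      have := i.2
      omega
    · exact hc.c3 l hl hl2 i (hm (htwo l hl1 (by omega)) hi)
  have hup : ∀ l, 1 ≤ l → l ≤ n - 1 →
      F^[(l - 1) * (n - 1)] {⟨n - 1, by omega⟩} ⊆ cyc n (n - 1) l → ∀ s, s ≤ n - 3 →
      F^[(l - 1) * (n - 1) + s] {⟨n - 1, by omega⟩} ⊆ cyc n (n - 1 - s) l := by
    intro l hl1 hl2 h s
    induction s with
    | zero => intro _; exact h
    | succ s ih =>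
      intro hs
      rw [← add_assoc, iterate_succ_apply']
      have e : n - 1 - (s + 1) = n - 1 - s - 1 := by omega
      rw [e]
      exact (hm (ih (by omega))).trans (hstep _ _ (by omega) (by omega) hl1 hl2)
  have hup2 : ∀ l, 1 ≤ l → l ≤ n - 1 →
      F^[(l - 1) * (n - 1)] {⟨n - 1, by omega⟩} ⊆ cyc n (n - 1) l →
      F^[(l - 1) * (n - 1) + (n - 2)] {⟨n - 1, by omega⟩} ⊆ F (cyc n 2 l) := by
    intro l hl1 hl2 h
    have h3 := hup l hl1 hl2 h (n - 3) le_rfl
    have e1 : n - 2 = n - 3 + 1 := by omega
    have e2 : n - 1 - (n - 3) = 2 := by omega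
    rw [e1, ← add_assoc, iterate_succ_apply']
    rw [e2] at h3
    exact hm h3
  have hall : ∀ l, 1 ≤ l → l ≤ n - 1 →
      F^[(l - 1) * (n - 1)] {⟨n - 1, by omega⟩} ⊆ cyc n (n - 1) l := by
    intro l
    induction l with
    | zero => intro h; omega
    | succ l ih =>
      intro _ hl
      rcases Nat.eq_zero_or_pos l with h3 | h3
      · subst h3
        simp only [Nat.zero_add, Nat.sub_self, zero_mul, iterate_zero, id, singleton_subset_iff]
        rw [mem_cyc (by omega) (by omega)]
        simp only
        omega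
      · have h4 := hup2 l h3 (by omega) (ih h3 (by omega))
        have e2 : (l + 1 - 1) * (n - 1) = (l - 1) * (n - 1) + (n - 2) + 1 := by
          obtain ⟨m, rfl⟩ := Nat.exists_eq_add_of_le' h3
          have h5 : m + 1 + 1 - 1 = m + 1 := by omega
          have h6 : m + 1 - 1 = m := by omega
          rw [h5, h6, add_mul]
          omega
        rw [e2, iterate_succ_apply']
        exact (hm h4).trans (hone l h3 (by omega))
  have hfin := hup2 (n - 1) (by omega) le_rfl (hall (n - 1) (by omega) le_rfl)
  have e3 : (n - 1) ^ 2 = (n - 1 - 1) * (n - 1) + (n - 2) + 1 := by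
    obtain ⟨m, rfl⟩ := Nat.exists_eq_add_of_le h2
    have h5 : 2 + m - 1 = m + 1 := by omega
    have h6 : 2 + m - 2 = m := by omega
    have h7 : m + 1 - 1 = m := by omega
    rw [h5, h6, h7]
    ring
  rw [e3, iterate_succ_apply, h0]
  intro h
  rw [h] at hfin
  have h5 := hfin (mem_univ ⟨0, by omega⟩)
  rcases hc.c2 2 (n - 1) le_rfl (by omega) (by omega) le_rfl _ h5 with h6 | h6
  · rw [mem_cyc (by omega) (by omega)] at h6
    simp only at h6
    omega
  · omega

theorem cond_of_slow (h2 : 2 ≤ n) (hm : Monotone F) (hw : Wiel F)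
    (hslow : F^[(n - 1) ^ 2] {⟨0, by omega⟩} ≠ univ) : Cond F := by
  have h0 : F {⟨0, by omega⟩} = {⟨n - 1, by omega⟩} := by
    ext i
    rw [hw, mem_singleton_iff]
    constructor
    · intro h
      apply Fin.ext
      simp only at h ⊢
      omega
    · intro h
      rw [h]
      right
      simp
  have e3 : (n - 1) ^ 2 = (n - 1 - 1) * (n - 1) + (n - 2) + 1 := by
    obtain ⟨m, rfl⟩ := Nat.exists_eq_add_of_le h2
    have h5 : 2 + m - 1 = m + 1 := by omega
    have h6 : 2 + m - 2 = m := by omega
    have h7 : m + 1 - 1 = m := by omega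
    rw [h5, h6, h7]
    ring
  rw [e3, iterate_succ_apply, h0] at hslow
  have hmi : ∀ r, Monotone F^[r] := fun r => hm.iterate r
  refine ⟨hw, ?_, ?_⟩
  · intro a l ha1 ha2 hl1 hl2 x hx
    by_contra hcon
    rw [not_or] at hcon
    obtain ⟨hx1, hx2⟩ := hcon
    apply hslow
    have h3 := reach h2 hm hw l (by omega) hl2 (n - 1 - a) (by omega)
    have e1 : n - 1 - (n - 1 - a) = a := by omega
    rw [e1] at h3
    have h4 : cyc n (a - 1) l ∪ {x} ⊆
        F^[(l - 1) * (n - 1) + (n - 1 - a) + 1] {⟨n - 1, by omega⟩} := by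
      rw [iterate_succ_apply']
      apply union_subset
      · exact (low_cyc h2 hm hw ha1 ha2 (by omega)).trans (hm h3)
      · rw [singleton_subset_iff]
        exact hm h3 hx
    have h5 := spread h2 hm hw _ (a - 1) l x (by omega) (by omega) (by omega) hl2 hx1
      (by omega) rfl _ h4
    rw [← iterate_add_apply] at h5
    have e4 : (n - 1 - l) * (n - 1) + (a - 1 - 1) + ((l - 1) * (n - 1) + (n - 1 - a) + 1) =
        (n - 1 - 1) * (n - 1) + (n - 2) := by
      obtain ⟨p, rfl⟩ : ∃ p, l = p + 1 := ⟨l - 1, by omega⟩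
      obtain ⟨q, hq⟩ : ∃ q, n = p + 1 + 1 + q := ⟨n - (p + 1) - 1, by omega⟩
      subst hq
      have h6 : p + 1 + 1 + q - 1 - (p + 1) = q := by omega
      have h7 : p + 1 - 1 = p := by omega
      have h8 : p + 1 + 1 + q - 1 - 1 = p + q := by omega
      have h9 : p + 1 + 1 + q - 2 = p + q := by omega
      have h10 : p + 1 + 1 + q - 1 = p + q + 1 := by omega
      rw [h6, h7, h8, h9, h10]
      have h11 : (a - 1 - 1) + (p + q + 1 - a + 1) = p + q := by omega
      calc q * (p + q + 1) + (a - 1 - 1) + (p * (p + q + 1) + (p + q + 1 - a) + 1)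
          = (p + q) * (p + q + 1) + ((a - 1 - 1) + (p + q + 1 - a + 1)) := by ring
        _ = _ := by rw [h11]
    rw [e4] at h5
    exact h5
  · intro l hl1 hl2 x hx
    by_contra hx1
    apply hslow
    have h3 := reach h2 hm hw l (by omega) (by omega) (n - 3) (by omega)
    have e1 : n - 1 - (n - 3) = 2 := by omega
    rw [e1] at h3
    have h31 : F (cyc n 2 l) ⊆ F^[(l - 1) * (n - 1) + (n - 2)] {⟨n - 1, by omega⟩} := by
      have e5 : n - 2 = n - 3 + 1 := by omega
      rw [e5, ← add_assoc, iterate_succ_apply']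
      exact hm h3
    have h32 : cyc n 1 l ∪ {z | (z : ℕ) = 0 ∧ z ∈ F (cyc n 2 l)} ⊆
        F^[(l - 1) * (n - 1) + (n - 2)] {⟨n - 1, by omega⟩} := by
      apply union_subset
      · exact (low_cyc h2 hm hw (a := 2) le_rfl (by omega) (by omega)).trans h31
      · intro z hz
        exact h31 hz.2
    have h4 : cyc n (n - 1) (l + 1) ∪ {x} ⊆
        F^[(l - 1) * (n - 1) + (n - 2) + 1] {⟨n - 1, by omega⟩} := by
      rw [iterate_succ_apply']
      apply union_subset
      · exact (low_one h2 hm hw (by omega) (by omega)).trans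
          (hm (subset_union_left.trans h32))
      · rw [singleton_subset_iff]
        exact hm h32 hx
    have h5 := spread h2 hm hw _ (n - 1) (l + 1) x (by omega) (by omega) (by omega) (by omega) hx1
      (by omega) rfl _ h4
    rw [← iterate_add_apply] at h5
    have e4 : (n - 1 - (l + 1)) * (n - 1) + (n - 1 - 1) + ((l - 1) * (n - 1) + (n - 2) + 1) =
        (n - 1 - 1) * (n - 1) + (n - 2) := by
      obtain ⟨p, rfl⟩ : ∃ p, l = p + 1 := ⟨l - 1, by omega⟩
      obtain ⟨q, hq⟩ : ∃ q, n = p + 1 + 2 + q := ⟨n - (p + 1) - 2, by omega⟩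
      subst hq
      have h6 : p + 1 + 2 + q - 1 - (p + 1 + 1) = q := by omega
      have h7 : p + 1 - 1 = p := by omega
      have h8 : p + 1 + 2 + q - 1 - 1 = p + q + 1 := by omega
      have h9 : p + 1 + 2 + q - 2 = p + q + 1 := by omega
      have h10 : p + 1 + 2 + q - 1 = p + q + 2 := by omega
      rw [h6, h7, h8, h9, h10]
      ring
    rw [e4] at h5
    exact h5

end Pool.Agent.R113.PT
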