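import Pool.Agent.R113.PT.Struct

/-! Cyclic intervals and the condition for the maximal degree. -/

set_option autoImplicit false

namespace Pool.Agent.R113.PT

open Set Function

/-- the cyclic interval `a, a+1, ..., a+l-1` modulo `n` -/
def cyc (n a l : ℕ) : Set (Fin n) := {i | ∃ t < l, (i : ℕ) = (a + t) % n}

theorem mem_cyc {n a l : ℕ} (ha : a < n) (hl : l ≤ n) (i : Fin n) :
    i ∈ cyc n a l ↔ ((a ≤ i ∧ (i : ℕ) < a + l) ∨ (i : ℕ) + n < a + l) := by
  have hi := i.2
  constructor
  · rintro ⟨t, ht, h⟩
    by_cases h1 : a + t < n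
    · rw [Nat.mod_eq_of_lt h1] at h
      left; omega
    · have h2 : (a + t) % n = a + t - n := by
        rw [Nat.mod_eq_sub_mod (by omega), Nat.mod_eq_of_lt (by omega)]
      rw [h2] at h
      right; omega
  · rintro (⟨h1, h2⟩ | h1)
    · refine ⟨i - a, by omega, ?_⟩
      rw [Nat.mod_eq_of_lt (by omega)]
      omega
    · refine ⟨i + n - a, by omega, ?_⟩
      have : a + (i + n - a) = i + n := by omega
      rw [this, Nat.add_mod_right, Nat.mod_eq_of_lt hi]

/-- the condition on a set map, see the statement of the result -/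
structure Cond {n : ℕ} (F : Set (Fin n) → Set (Fin n)) : Prop where
  w : ∀ i j : Fin n, i ∈ F {j} ↔
    ((i : ℕ) + 1 = j ∨ ((i : ℕ) = n - 1 ∧ ((j : ℕ) = 0 ∨ (j : ℕ) = 1)))
  c2 : ∀ a l : ℕ, 2 ≤ a → a ≤ n - 1 → 2 ≤ l → l ≤ n - 1 → ∀ i ∈ F (cyc n a l),
    i ∈ cyc n (a - 1) l ∨ (a = 2 ∧ l ≤ n - 2 ∧ (i : ℕ) = 0)
  c3 : ∀ l : ℕ, 2 ≤ l → l ≤ n - 2 →
    ∀ i ∈ F (cyc n 1 l ∪ {z | (z : ℕ) = 0 ∧ z ∈ F (cyc n 2 l)}), i ∈ cyc n (n - 1) (l + 1)

variable {n : ℕ} {F : Set (Fin n) → Set (Fin n)}

/-- the Wielandt part of the condition -/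
def Wiel (F : Set (Fin n) → Set (Fin n)) : Prop := ∀ i j : Fin n, i ∈ F {j} ↔
    ((i : ℕ) + 1 = j ∨ ((i : ℕ) = n - 1 ∧ ((j : ℕ) = 0 ∨ (j : ℕ) = 1)))

theorem low (h2 : 2 ≤ n) (hm : Monotone F) (hw : Wiel F) {S : Set (Fin n)} {i j : Fin n}
    (hj : j ∈ S) (hij : (i : ℕ) + 1 = j ∨ ((i : ℕ) = n - 1 ∧ ((j : ℕ) = 0 ∨ (j : ℕ) = 1))) :
    i ∈ F S :=
  hm (singleton_subset_iff.2 hj) ((hw i j).2 hij)

theorem low_cyc (h2 : 2 ≤ n) (hm : Monotone F) (hw : Wiel F) {a l : ℕ} (ha : 2 ≤ a)
    (ha' : a ≤ n - 1) (hl : l ≤ n) : cyc n (a - 1) l ⊆ F (cyc n a l) := by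
  intro i hi
  rw [mem_cyc (by omega) hl] at hi
  have hi2 := i.2
  by_cases h : (i : ℕ) + 1 < n
  · refine low h2 hm hw (j := ⟨i + 1, h⟩) ?_ (Or.inl rfl)
    rw [mem_cyc (by omega) hl]
    simp only
    omega
  · refine low h2 hm hw (j := ⟨0, by omega⟩) ?_ (Or.inr ⟨by omega, Or.inl rfl⟩)
    rw [mem_cyc (by omega) hl]
    simp only
    omega

theorem low_one (h2 : 2 ≤ n) (hm : Monotone F) (hw : Wiel F) {l : ℕ} (hl1 : 1 ≤ l)
    (hl : l ≤ n - 1) : cyc n (n - 1) (l + 1) ⊆ F (cyc n 1 l) := by
  intro i hi
  rw [mem_cyc (by omega) (by omega)] at hi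
  have hi2 := i.2
  by_cases h : (i : ℕ) = n - 1
  · refine low h2 hm hw (j := ⟨1, by omega⟩) ?_ (Or.inr ⟨by omega, Or.inr rfl⟩)
    rw [mem_cyc (by omega) (by omega)]
    simp only
    omega
  · refine low h2 hm hw (j := ⟨i + 1, by omega⟩) ?_ (Or.inl rfl)
    rw [mem_cyc (by omega) (by omega)]
    simp only
    omega

/-- an additional element makes everything full too early -/
theorem spread (h2 : 2 ≤ n) (hm : Monotone F) (hw : Wiel F) : ∀ (s b l : ℕ) (x : Fin n),
    1 ≤ b → b ≤ n - 1 → 1 ≤ l → l ≤ n - 1 → x ∉ cyc n b l →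
    (2 ≤ b ∨ (x : ℕ) ≠ 0 ∨ l = n - 1) → s = (n - 1 - l) * (n - 1) + (b - 1) →
    ∀ S, cyc n b l ∪ {x} ⊆ S → F^[s] S = univ := by
  intro s
  induction s with
  | zero =>
    intro b l x hb1 hb2 hl1 hl2 hx hv hs S hS
    have h3 : b = 1 := by omega
    have h4 : (n - 1 - l) * (n - 1) = 0 := by omega
    have h5 : l = n - 1 := by
      rcases Nat.mul_eq_zero.1 h4 with h | h <;> omega
    subst h3 h5
    apply univ_subset_iff.1
    intro y _
    apply hS
    by_cases hy : y ∈ cyc n 1 (n - 1)
    · exact Or.inl hy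
    · right
      rw [mem_cyc (by omega) (by omega)] at hx hy
      have := x.2
      have := y.2
      rw [mem_singleton_iff]
      apply Fin.ext
      omega
  | succ s ih =>
    intro b l x hb1 hb2 hl1 hl2 hx hv hs S hS
    rw [iterate_succ_apply]
    have hx2 := x.2
    have hcS : cyc n b l ⊆ S := fun y hy => hS (Or.inl hy)
    have hxS : x ∈ S := hS (Or.inr rfl)
    by_cases hb : 2 ≤ b
    · have hsub : cyc n (b - 1) l ⊆ F S :=
        (low_cyc h2 hm hw hb hb2 (by omega)).trans (hm hcS)
      rw [mem_cyc (by omega) (by omega)] at hx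
      have hs' : s = (n - 1 - l) * (n - 1) + (b - 1 - 1) := by omega
      by_cases hx0 : (x : ℕ) = 0
      · refine ih (b - 1) l ⟨n - 1, by omega⟩ (by omega) (by omega) hl1 hl2 ?_ ?_ hs' _ ?_
        · rw [mem_cyc (by omega) (by omega)]
          simp only
          omega
        · simp only
          omega
        · apply union_subset hsub
          rw [singleton_subset_iff]
          exact low h2 hm hw hxS (Or.inr ⟨rfl, Or.inl hx0⟩)
      · by_cases hx1 : (x : ℕ) = 1 ∧ b = 2 ∧ l < n - 1
        · obtain ⟨hx1, hb', hl'⟩ := hx1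
          refine ih (b - 1) l ⟨n - 1, by omega⟩ (by omega) (by omega) hl1 hl2 ?_ ?_ hs' _ ?_
          · rw [mem_cyc (by omega) (by omega)]
            simp only
            omega
          · simp only
            omega
          · apply union_subset hsub
            rw [singleton_subset_iff]
            exact low h2 hm hw hxS (Or.inr ⟨rfl, Or.inr hx1⟩)
        · refine ih (b - 1) l ⟨x - 1, by omega⟩ (by omega) (by omega) hl1 hl2 ?_ ?_ hs' _ ?_
          · rw [mem_cyc (by omega) (by omega)]
            simp only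
            omega
          · simp only
            omega
          · apply union_subset hsub
            rw [singleton_subset_iff]
            refine low h2 hm hw hxS (Or.inl ?_)
            simp only
            omega
    · have hb' : b = 1 := by omega
      subst hb'
      by_cases hl : l = n - 1
      · exfalso
        rw [hl] at hs
        simp at hs
      · have hsub : cyc n (n - 1) (l + 1) ⊆ F S :=
          (low_one h2 hm hw hl1 hl2).trans (hm hcS)
        rw [mem_cyc (by omega) (by omega)] at hx
        have hs' : s = (n - 1 - (l + 1)) * (n - 1) + (n - 1 - 1) := by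
          have h5 : n - 1 - l = (n - 1 - (l + 1)) + 1 := by omega
          rw [h5, add_mul] at hs
          omega
        refine ih (n - 1) (l + 1) ⟨x - 1, by omega⟩ (by omega) le_rfl (by omega) (by omega)
          ?_ ?_ hs' _ ?_
        · rw [mem_cyc (by omega) (by omega)]
          simp only
          omega
        · simp only
          omega
        · apply union_subset hsub
          rw [singleton_subset_iff]
          refine low h2 hm hw hxS (Or.inl ?_)
          simp only
          omega

/-- the lower bound for the orbit of the last element -/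
theorem reach (h2 : 2 ≤ n) (hm : Monotone F) (hw : Wiel F) : ∀ (l : ℕ), 1 ≤ l → l ≤ n - 1 →
    ∀ s, s ≤ n - 2 → cyc n (n - 1 - s) l ⊆ F^[(l - 1) * (n - 1) + s] {⟨n - 1, by omega⟩} := by
  intro l
  induction l with
  | zero => intro h; omega
  | succ l ih =>
    intro _ hl s
    induction s with
    | zero =>
      intro _
      rcases Nat.eq_zero_or_pos l with h0 | h0
      · subst h0
        simp only [Nat.zero_add, Nat.sub_self, zero_mul, Nat.sub_zero, iterate_zero, id]
        intro i hi
        rw [mem_cyc (by omega) (by omega)] at hi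
        have := i.2
        rw [mem_singleton_iff]
        apply Fin.ext
        simp only
        omega
      · have h3 := ih h0 (by omega) (n - 2) le_rfl
        have e1 : n - 1 - (n - 2) = 1 := by omega
        rw [e1] at h3
        have e2 : (l + 1 - 1) * (n - 1) + 0 = (l - 1) * (n - 1) + (n - 2) + 1 := by
          obtain ⟨m, rfl⟩ := Nat.exists_eq_add_of_le' h0
          have h5 : m + 1 + 1 - 1 = m + 1 := by omega
          have h6 : m + 1 - 1 = m := by omega
          rw [h5, h6, add_mul]
          omega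
        rw [e2, iterate_succ_apply', Nat.sub_zero]
        exact (low_one h2 hm hw h0 (by omega)).trans (hm h3)
    | succ s ih2 =>
      intro hs
      have h3 := ih2 (by omega)
      rw [← add_assoc, iterate_succ_apply']
      have e : n - 1 - (s + 1) = n - 1 - s - 1 := by omega
      rw [e]
      exact (low_cyc h2 hm hw (by omega) (by omega) (by omega)).trans (hm h3)

theorem full (h2 : 2 ≤ n) (hm : Monotone F) (hw : Wiel F) :
    F^[(n - 1) ^ 2] {⟨n - 1, by omega⟩} = univ := by
  have h3 := reach h2 hm hw (n - 1) (by omega) le_rfl (n - 2) le_rfl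
  have e1 : n - 1 - (n - 2) = 1 := by omega
  rw [e1] at h3
  have e2 : (n - 1) ^ 2 = (n - 1 - 1) * (n - 1) + (n - 2) + 1 := by
    obtain ⟨m, rfl⟩ := Nat.exists_eq_add_of_le h2
    have h5 : 2 + m - 1 = m + 1 := by omega
    have h6 : 2 + m - 2 = m := by omega
    have h7 : m + 1 - 1 = m := by omega
    rw [h5, h6, h7]
    ring
  rw [e2, iterate_succ_apply']
  apply univ_subset_iff.1
  have h4 : cyc n (n - 1) (n - 1 + 1) = univ := by
    apply univ_subset_iff.1
    intro i _
    rw [mem_cyc (by omega) (by omega)]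
    have := i.2
    omega
  rw [← h4]
  exact (low_one h2 hm hw (by omega) le_rfl).trans (hm h3)

theorem univ_fix' (h2 : 2 ≤ n) (hm : Monotone F) (hw : Wiel F) : F univ = univ := by
  apply univ_subset_iff.1
  intro i _
  have := i.2
  by_cases h : (i : ℕ) + 1 < n
  · exact low h2 hm hw (j := ⟨i + 1, h⟩) (mem_univ _) (Or.inl rfl)
  · exact low h2 hm hw (j := ⟨0, by omega⟩) (mem_univ _) (Or.inr ⟨by omega, Or.inl rfl⟩)

theorem persist' (h2 : 2 ≤ n) (hm : Monotone F) (hw : Wiel F) {S : Set (Fin n)} {a b : ℕ}
    (hab : a ≤ b) (hS : F^[a] S = univ) : F^[b] S = univ := by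
  obtain ⟨c, rfl⟩ := Nat.exists_eq_add_of_le' hab
  rw [iterate_add_apply, hS]
  clear hS hab
  induction c with
  | zero => rfl
  | succ c ih => rw [iterate_succ_apply', ih, univ_fix' h2 hm hw]

theorem full_all (h2 : 2 ≤ n) (hm : Monotone F) (hw : Wiel F) (j : Fin n) :
    F^[(n - 1) ^ 2 + 1] {j} = univ := by
  have hmi : ∀ r, Monotone F^[r] := fun r => hm.iterate r
  by_cases hj0 : (j : ℕ) = 0
  · rw [iterate_succ_apply]
    apply univ_subset_iff.1
    rw [← full h2 hm hw]
    apply hmi
    rw [singleton_subset_iff, hw]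
    right
    exact ⟨rfl, Or.inl hj0⟩
  · -- `{j}` reaches `cyc (n-1) 2` after `j` steps
    have hj2 := j.2
    have h3 : ∀ s, s + 1 ≤ (j : ℕ) → ∀ y : Fin n, (y : ℕ) + s = j → y ∈ F^[s] {j} := by
      intro s
      induction s with
      | zero =>
        intro _ y hy
        simp only [iterate_zero, id, mem_singleton_iff]
        apply Fin.ext
        omega
      | succ s ih =>
        intro hs y hy
        rw [iterate_succ_apply']
        exact low h2 hm hw (ih (by omega) ⟨y + 1, by omega⟩ (by simp only; omega)) (Or.inl rfl)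
    have h4 : (⟨1, by omega⟩ : Fin n) ∈ F^[(j : ℕ) - 1] {j} :=
      h3 ((j : ℕ) - 1) (by omega) _ (by simp only; omega)
    have h5 : cyc n (n - 1) (1 + 1) ⊆ F^[(j : ℕ)] {j} := by
      have e : (j : ℕ) = (j : ℕ) - 1 + 1 := by omega
      have h6 : cyc n 1 1 ⊆ F^[(j : ℕ) - 1] {j} := by
        intro y hy
        rw [mem_cyc (by omega) (by omega)] at hy
        have := y.2
        have hy1 : y = ⟨1, by omega⟩ := Fin.ext (by simp only; omega)
        rw [hy1]
        exact h4
      have h7 := (low_one h2 hm hw le_rfl (by omega)).trans (hm h6)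
      rw [← iterate_succ_apply' F] at h7
      rw [e]
      exact h7
    by_cases hn : n = 2
    · subst hn
      have h8 : F^[(j : ℕ)] {j} = univ := by
        apply univ_subset_iff.1
        refine subset_trans ?_ h5
        intro y _
        rw [mem_cyc (by omega) (by omega)]
        have := y.2
        omega
      exact persist' h2 hm hw (by omega) h8
    · -- use `spread`-free lower bound: from `cyc (n-1) 2` full in `(n-2)(n-1)` steps
      have key : ∀ l, 1 ≤ l → l ≤ n - 1 → ∀ s, s ≤ n - 2 → ∀ S, cyc n (n - 1 - s) l ⊆ S →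
          F^[(n - 1 - l) * (n - 1) + (n - 1 - s)] S = univ := by
        intro l hl1 hl2 s hs S hS
        have hd : ∃ d, d = (n - 1 - l) * (n - 1) + (n - 1 - s) := ⟨_, rfl⟩
        obtain ⟨d, hd⟩ := hd
        rw [← hd]
        clear h5 h4 h3
        induction d generalizing l s S with
        | zero => omega
        | succ d ih =>
          rw [iterate_succ_apply]
          by_cases hs1 : s = n - 2
          · have e1 : n - 1 - s = 1 := by omega
            rw [e1] at hS hd
            have h9 : cyc n (n - 1) (l + 1) ⊆ F S :=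
              (low_one h2 hm hw hl1 hl2).trans (hm hS)
            by_cases hl3 : l = n - 1
            · subst hl3
              have h10 : F S = univ := by
                apply univ_subset_iff.1
                refine subset_trans ?_ h9
                intro y _
                rw [mem_cyc (by omega) (by omega)]
                have := y.2
                omega
              exact persist' h2 hm hw (Nat.zero_le _) h10
            · have h5 : n - 1 - l = (n - 1 - (l + 1)) + 1 := by omega
              rw [h5, add_mul] at hd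
              apply ih (l + 1) (by omega) (by omega) 0 (by omega) (F S)
              · rw [Nat.sub_zero]; exact h9
              · rw [Nat.sub_zero]; omega
          · apply ih l hl1 hl2 (s + 1) (by omega) (F S)
            · have e : n - 1 - (s + 1) = n - 1 - s - 1 := by omega
              rw [e]
              exact (low_cyc h2 hm hw (by omega) (by omega) (by omega)).trans (hm hS)
            · omega
      have h8 := key 2 (by omega) (by omega) 0 (by omega) (F^[(j : ℕ)] {j})
        (by rw [Nat.sub_zero]; exact h5)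
      rw [← iterate_add_apply] at h8
      refine persist' h2 hm hw ?_ h8
      obtain ⟨m, rfl⟩ := Nat.exists_eq_add_of_le h2
      have h5 : 2 + m - 1 = m + 1 := by omega
      have h6 : 2 + m - 1 - 2 = m - 1 := by omega
      rw [h6, h5, Nat.sub_zero]
      obtain ⟨m', rfl⟩ : ∃ m', m = m' + 1 := ⟨m - 1, by omega⟩
      have h7 : m' + 1 - 1 = m' := by omega
      rw [h7]
      have h9 : (j : ℕ) ≤ m' + 2 := by omega
      nlinarith

end Pool.Agent.R113.PT
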