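import Pool.Agent.R113.PT.Walk

/-! A slow vertex forces the Wielandt digraph. -/

set_option autoImplicit false

namespace Pool.Agent.R113.PT

open Set Function

variable {n : ℕ} {F : Set (Fin n) → Set (Fin n)}

/-- walks from `j` -/
def IsWalk (F : Set (Fin n) → Set (Fin n)) (j : Fin n) (v : ℕ → Fin n) : Prop :=
  v 0 = j ∧ ∀ i, v (i + 1) ∈ F {v i}

/-- follow `v` up to time `i`, then jump to `v l` and follow `v` -/
def jump (v : ℕ → Fin n) (i l : ℕ) : ℕ → Fin n := fun t => if t ≤ i then v t else v (l + (t - i - 1))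

theorem jump_walk {j : Fin n} {v : ℕ → Fin n} (hv : IsWalk F j v) {i l : ℕ}
    (hl : v l ∈ F {v i}) : IsWalk F j (jump v i l) := by
  refine ⟨?_, ?_⟩
  · simp only [jump, Nat.zero_le, if_true]
    exact hv.1
  · intro t
    simp only [jump]
    rcases lt_trichotomy t i with h | h | h
    · rw [if_pos (by omega), if_pos (by omega)]
      exact hv.2 t
    · subst h
      have hA : ¬ (t + 1 ≤ t) := by omega
      have : l + (t + 1 - t - 1) = l := by omega
      simp only [hA, if_false, le_refl, if_true, this]
      exact hl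
    · rw [if_neg (by omega), if_neg (by omega)]
      have : l + (t + 1 - i - 1) = (l + (t - i - 1)) + 1 := by omega
      rw [this]
      exact hv.2 _

theorem jump_le (v : ℕ → Fin n) {i l t : ℕ} (h : t ≤ i) : jump v i l t = v t := by
  simp [jump, h]

theorem jump_gt (v : ℕ → Fin n) {i l : ℕ} (s : ℕ) : jump v i l (i + 1 + s) = v (l + s) := by
  simp only [jump]
  rw [if_neg (by omega)]
  congr 1
  omega

theorem slow' (h : Dyn F) {j : Fin n} (hslow : F^[(n - 1) ^ 2] {j} ≠ univ) {v : ℕ → Fin n}
    (hv : IsWalk F j v) {a b : ℕ} (hab : a < b) (hb : b ≤ n) (he : v a = v b) :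
    b = n ∧ (a = 0 ∨ a = 1) :=
  h.slow hv.2 (by rw [hv.1]; exact hslow) hab hb he

theorem walk_surj (h : Dyn F) {j : Fin n} (hslow : F^[(n - 1) ^ 2] {j} ≠ univ) {v : ℕ → Fin n}
    (hv : IsWalk F j v) (x : Fin n) : ∃ l, l ≤ n - 1 ∧ v l = x := by
  have hinj : Injective (fun i : Fin n => v i) := by
    intro a b hab
    by_contra hne
    rcases lt_or_gt_of_ne hne with h1 | h1
    · have := (slow' h hslow hv (a := a) (b := b) h1 b.2.le hab).1
      have := b.2
      omega
    · have := (slow' h hslow hv (a := b) (b := a) h1 a.2.le hab.symm).1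
      have := a.2
      omega
  obtain ⟨l, hl⟩ := (Finite.injective_iff_surjective.1 hinj) x
  exact ⟨l, by have := l.2; omega, hl⟩

theorem step_mid (h : Dyn F) {j : Fin n} (hslow : F^[(n - 1) ^ 2] {j} ≠ univ) {v : ℕ → Fin n}
    (hv : IsWalk F j v) {i : ℕ} (hi1 : 1 ≤ i) (hi2 : i + 2 ≤ n) : F {v i} = {v (i + 1)} := by
  apply Subset.antisymm
  · intro x hx
    obtain ⟨l, hl, rfl⟩ := walk_surj h hslow hv x
    rw [mem_singleton_iff]
    have hw := jump_walk hv hx
    rcases lt_trichotomy l (i + 1) with h1 | h1 | h1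
    · exfalso
      have h2 : jump v i l l = jump v i l (i + 1) := by
        rw [jump_le v (by omega)]
        have := jump_gt v (i := i) (l := l) 0
        rw [add_zero, add_zero] at this
        rw [this]
      have := (slow' h hslow hw h1 (by omega) h2).1
      omega
    · rw [h1]
    · exfalso
      -- `v n` is `v 0` or `v 1`
      obtain ⟨l0, hl0, he0⟩ := walk_surj h hslow hv (v n)
      have h3 := (slow' h hslow hv (a := l0) (b := n) (by omega) le_rfl he0).2
      have h4 : jump v i l l0 = jump v i l (i + 1 + (n - l)) := by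
        rw [jump_le v (by omega), jump_gt]
        have : l + (n - l) = n := by omega
        rw [this, he0]
      have := (slow' h hslow hw (a := l0) (b := i + 1 + (n - l)) (by omega) (by omega) h4).1
      omega
  · exact singleton_subset_iff.2 (hv.2 i)

theorem step_last (h : Dyn F) {j : Fin n} (hslow : F^[(n - 1) ^ 2] {j} ≠ univ) {v : ℕ → Fin n}
    (hv : IsWalk F j v) : F {v (n - 1)} ⊆ {v 0, v 1} := by
  intro x hx
  obtain ⟨l, hl, rfl⟩ := walk_surj h hslow hv x
  have hw := jump_walk hv hx
  have h2 := h.two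
  have h3 : jump v (n - 1) l l = jump v (n - 1) l n := by
    rw [jump_le v hl]
    have := jump_gt v (i := n - 1) (l := l) 0
    rw [add_zero, add_zero] at this
    have e : n - 1 + 1 = n := by omega
    rw [e] at this
    rw [this]
  rcases (slow' h hslow hw (a := l) (b := n) (by omega) le_rfl h3).2 with h4 | h4
  · left; rw [h4]
  · right; rw [mem_singleton_iff, h4]

theorem step_zero (h : Dyn F) {j : Fin n} (hslow : F^[(n - 1) ^ 2] {j} ≠ univ) {v : ℕ → Fin n}
    (hv : IsWalk F j v) (hc : v n = v 0) : F {v 0} = {v 1} := by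
  have h2 := h.two
  apply Subset.antisymm
  · intro x hx
    obtain ⟨l, hl, rfl⟩ := walk_surj h hslow hv x
    rw [mem_singleton_iff]
    have hw := jump_walk hv hx
    rcases lt_trichotomy l 1 with h1 | h1 | h1
    · exfalso
      have : l = 0 := by omega
      subst this
      have h3 : jump v 0 0 0 = jump v 0 0 1 := by
        rw [jump_le v le_rfl]
        have := jump_gt v (i := 0) (l := 0) 0
        simpa using this.symm
      have := (slow' h hslow hw (a := 0) (b := 1) (by omega) (by omega) h3).1
      omega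
    · rw [h1]
    · exfalso
      have h4 : jump v 0 l 0 = jump v 0 l (0 + 1 + (n - l)) := by
        rw [jump_le v le_rfl, jump_gt]
        have : l + (n - l) = n := by omega
        rw [this, hc]
      have := (slow' h hslow hw (a := 0) (b := 0 + 1 + (n - l)) (by omega) (by omega) h4).1
      omega
  · exact singleton_subset_iff.2 (hv.2 0)

theorem exists_walk (h : Dyn F) (j : Fin n) : ∃ v, IsWalk F j v := by
  choose nx hnx using h.nonempty
  refine ⟨fun i => nx^[i] j, rfl, ?_⟩
  intro i
  simp only [iterate_succ_apply']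
  exact hnx _

theorem last_one (h : Dyn F) {j : Fin n} (hslow : F^[(n - 1) ^ 2] {j} ≠ univ) {v : ℕ → Fin n}
    (hv : IsWalk F j v) : v 0 ∈ F {v (n - 1)} := by
  have h2 := h.two
  by_contra h0
  have h1 : F {v (n - 1)} = {v 1} := by
    apply Subset.antisymm
    · intro x hx
      rcases step_last h hslow hv hx with h3 | h3
      · rw [h3] at hx; exact absurd hx h0
      · exact h3
    · obtain ⟨x, hx⟩ := h.nonempty (v (n - 1))
      rcases step_last h hslow hv hx with h3 | h3
      · rw [h3] at hx; exact absurd hx h0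
      · rw [mem_singleton_iff] at h3
        rw [h3] at hx
        exact singleton_subset_iff.2 hx
  have hsing : ∀ r, ∃ i, 1 ≤ i ∧ i ≤ n - 1 ∧ F^[r] {v 1} = {v i} := by
    intro r
    induction r with
    | zero => exact ⟨1, le_rfl, by omega, rfl⟩
    | succ r ih =>
      obtain ⟨i, hi1, hi2, hi3⟩ := ih
      rw [iterate_succ_apply', hi3]
      by_cases h3 : i = n - 1
      · exact ⟨1, le_rfl, by omega, by rw [h3, h1]⟩
      · exact ⟨i + 1, by omega, by omega, step_mid h hslow hv hi1 (by omega)⟩
  obtain ⟨r, hr⟩ := h.prim (v 1)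
  obtain ⟨i, -, -, hi⟩ := hsing r
  exact single_ne h2 _ (hi.symm.trans hr)

theorem last_two (h : Dyn F) {j : Fin n} (hslow : F^[(n - 1) ^ 2] {j} ≠ univ) {v : ℕ → Fin n}
    (hv : IsWalk F j v) (hc : v n = v 0) : v 1 ∈ F {v (n - 1)} := by
  have h2 := h.two
  by_contra h0
  have h1 : F {v (n - 1)} = {v 0} := by
    apply Subset.antisymm
    · intro x hx
      rcases step_last h hslow hv hx with h3 | h3
      · exact h3
      · rw [mem_singleton_iff] at h3
        rw [h3] at hx; exact absurd hx h0
    · exact singleton_subset_iff.2 (last_one h hslow hv)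
  have hsing : ∀ r, ∃ i, i ≤ n - 1 ∧ F^[r] {v 0} = {v i} := by
    intro r
    induction r with
    | zero => exact ⟨0, by omega, rfl⟩
    | succ r ih =>
      obtain ⟨i, hi2, hi3⟩ := ih
      rw [iterate_succ_apply', hi3]
      by_cases h3 : i = n - 1
      · exact ⟨0, by omega, by rw [h3, h1]⟩
      · rcases Nat.eq_zero_or_pos i with h4 | h4
        · subst h4
          exact ⟨1, by omega, step_zero h hslow hv hc⟩
        · exact ⟨i + 1, by omega, step_mid h hslow hv h4 (by omega)⟩
  obtain ⟨r, hr⟩ := h.prim (v 0)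
  obtain ⟨i, -, hi⟩ := hsing r
  exact single_ne h2 _ (hi.symm.trans hr)

/-- **the singletons move as in the Wielandt digraph** -/
theorem structure_thm (h : Dyn F) {j : Fin n} (hslow : F^[(n - 1) ^ 2] {j} ≠ univ) :
    ∃ v : ℕ → Fin n, v 0 = j ∧ (∀ a b, a < b → b < n → v a ≠ v b) ∧
      (∀ i, i + 2 ≤ n → F {v i} = {v (i + 1)}) ∧ F {v (n - 1)} = {v 0, v 1} := by
  obtain ⟨v0, hv0⟩ := exists_walk h j
  have h2 := h.two
  have hl := last_one h hslow hv0
  have hv := jump_walk hv0 hl
  set v := jump v0 (n - 1) 0 with hvd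
  have hc : v n = v 0 := by
    have h3 := jump_gt v0 (i := n - 1) (l := 0) 0
    have e : n - 1 + 1 + 0 = n := by omega
    rw [e] at h3
    rw [hvd, h3, jump_le v0 (by omega)]
  refine ⟨v, hv.1, ?_, ?_, ?_⟩
  · intro a b hab hb he
    have := (slow' h hslow hv hab hb.le he).1
    omega
  · intro i hi
    rcases Nat.eq_zero_or_pos i with h4 | h4
    · subst h4
      exact step_zero h hslow hv hc
    · exact step_mid h hslow hv h4 hi
  · apply Subset.antisymm (step_last h hslow hv)
    intro x hx
    rcases hx with hx | hx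
    · rw [hx]; exact last_one h hslow hv
    · rw [mem_singleton_iff] at hx
      rw [hx]; exact last_two h hslow hv hc

end Pool.Agent.R113.PT
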