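import Mathlib

/-! Set dynamics: a monotone map on sets whose iterates spread every singleton to the whole set.
If some singleton needs more than `(n-1)^2` steps then the singletons move as in the Wielandt
digraph. -/

set_option autoImplicit false

namespace Pool.Agent.R113.PT

open Set Function

variable {n : ℕ} {F : Set (Fin n) → Set (Fin n)}

structure Dyn (F : Set (Fin n) → Set (Fin n)) : Prop where
  two : 2 ≤ n
  mono : Monotone F
  empty : F ∅ = ∅
  prim : ∀ j, ∃ r, F^[r] {j} = univ

theorem single_ne (h : 2 ≤ n) (j : Fin n) : ({j} : Set (Fin n)) ≠ univ := by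
  intro h1
  have : Subsingleton (Fin n) := by
    constructor
    intro a b
    have ha : a ∈ ({j} : Set (Fin n)) := h1 ▸ mem_univ a
    have hb : b ∈ ({j} : Set (Fin n)) := h1 ▸ mem_univ b
    rw [mem_singleton_iff] at ha hb
    rw [ha, hb]
  have h2 := Fintype.card_le_one_iff_subsingleton.2 this
  rw [Fintype.card_fin] at h2
  omega

theorem Dyn.univ_fix (h : Dyn F) : F univ = univ := by
  obtain ⟨r, hr⟩ := h.prim ⟨0, by have := h.two; omega⟩
  rcases r with _ | r
  · exact absurd hr (single_ne h.two _)
  · rw [iterate_succ_apply'] at hr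
    apply univ_subset_iff.1
    calc univ = F (F^[r] {⟨0, by have := h.two; omega⟩}) := hr.symm
      _ ⊆ F univ := h.mono (subset_univ _)

theorem Dyn.univ_iter (h : Dyn F) (r : ℕ) : F^[r] univ = univ := by
  induction r with
  | zero => rfl
  | succ r ih => rw [iterate_succ_apply', ih, h.univ_fix]

theorem Dyn.persist (h : Dyn F) {S : Set (Fin n)} {a b : ℕ} (hab : a ≤ b)
    (hS : F^[a] S = univ) : F^[b] S = univ := by
  obtain ⟨c, rfl⟩ := Nat.exists_eq_add_of_le' hab
  rw [iterate_add_apply, hS, h.univ_iter]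

theorem Dyn.mono_iter (h : Dyn F) (r : ℕ) : Monotone F^[r] := h.mono.iterate r

theorem Dyn.nonempty (h : Dyn F) (j : Fin n) : (F {j}).Nonempty := by
  rw [nonempty_iff_ne_empty]
  intro h1
  obtain ⟨r, hr⟩ := h.prim j
  have h0 : ∀ r, F^[r] (∅ : Set (Fin n)) = ∅ := by
    intro r
    induction r with
    | zero => rfl
    | succ r ih => rw [iterate_succ_apply', ih, h.empty]
  rcases r with _ | r
  · exact absurd hr (single_ne h.two _)
  · rw [iterate_succ_apply, h1, h0] at hr
    have : j ∈ (∅ : Set (Fin n)) := hr ▸ mem_univ j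
    exact this

/-- the chain argument -/
theorem Dyn.chain (h : Dyn F) {i : Fin n} {s : ℕ} (h0 : 1 ≤ s) (hi : i ∈ F^[s] {i}) :
    F^[s * (n - 1)] {i} = univ := by
  have hs : ∀ k, F^[s * k] {i} ⊆ F^[s * (k + 1)] {i} := by
    intro k
    rw [mul_add, mul_one, iterate_add_apply]
    apply h.mono_iter
    exact singleton_subset_iff.2 hi
  by_contra hne
  have hne' : ∀ k, k ≤ n - 1 → F^[s * k] {i} ≠ univ := by
    intro k hk h1
    exact hne (h.persist (Nat.mul_le_mul_left s hk) h1)
  have hstrict : ∀ k, k ≤ n - 1 → F^[s * k] {i} ≠ F^[s * (k + 1)] {i} := by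
    intro k hk heq
    have hconst : ∀ m, F^[s * (k + m)] {i} = F^[s * k] {i} := by
      intro m
      induction m with
      | zero => rfl
      | succ m ih =>
        have e1 : s * (k + (m + 1)) = s + s * (k + m) := by ring
        have e2 : s * (k + 1) = s + s * k := by ring
        rw [e1, iterate_add_apply, ih, ← iterate_add_apply, ← e2, ← heq]
    obtain ⟨r, hr⟩ := h.prim i
    have h1 : F^[s * (k + r)] {i} = univ := by
      apply h.persist _ hr
      nlinarith
    rw [hconst r] at h1
    exact hne' k hk h1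
  have hcard : ∀ k, k ≤ n - 1 → k + 1 ≤ (F^[s * k] {i}).ncard := by
    intro k
    induction k with
    | zero => intro _; simp
    | succ k ih =>
      intro hk
      have h1 := ih (by omega)
      have h2 : F^[s * k] {i} ⊂ F^[s * (k + 1)] {i} :=
        (hs k).ssubset_of_ne (hstrict k (by omega))
      have h3 := Set.ncard_lt_ncard h2 (Set.toFinite _)
      omega
  have h1 := hcard (n - 1) le_rfl
  have h2 : (F^[s * (n - 1)] {i}).ncard = n := by
    apply le_antisymm
    · have := Set.ncard_le_ncard (subset_univ (F^[s * (n - 1)] {i})) (Set.toFinite _)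
      rwa [Set.ncard_univ, Nat.card_eq_fintype_card, Fintype.card_fin] at this
    · have := h.two
      omega
  apply hne
  apply Set.eq_of_subset_of_ncard_le (subset_univ _) _ (Set.toFinite _)
  rw [Set.ncard_univ, Nat.card_eq_fintype_card, Fintype.card_fin, h2]

theorem Dyn.walk_mem (h : Dyn F) {v : ℕ → Fin n} (hv : ∀ i, v (i + 1) ∈ F {v i}) (a s : ℕ) :
    v (a + s) ∈ F^[s] {v a} := by
  induction s with
  | zero => simp
  | succ s ih =>
    rw [iterate_succ_apply']
    exact h.mono (singleton_subset_iff.2 ih) (hv (a + s))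

/-- a slow walk closes only after `n` steps -/
theorem Dyn.slow (h : Dyn F) {v : ℕ → Fin n} (hv : ∀ i, v (i + 1) ∈ F {v i})
    (hslow : F^[(n - 1) ^ 2] {v 0} ≠ univ) {a b : ℕ} (hab : a < b) (hb : b ≤ n)
    (he : v a = v b) : b = n ∧ (a = 0 ∨ a = 1) := by
  obtain ⟨s, rfl⟩ := Nat.exists_eq_add_of_lt hab
  have h2 := h.two
  have h3 := h.walk_mem hv 0 a
  have h4 := h.walk_mem hv a (s + 1)
  rw [← add_assoc, ← he] at h4
  have h5 := h.chain (by omega) h4
  rw [zero_add] at h3
  have h6 : F^[(s + 1) * (n - 1) + a] {v 0} = univ := by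
    rw [iterate_add_apply]
    apply univ_subset_iff.1
    rw [← h5]
    exact h.mono_iter _ (singleton_subset_iff.2 h3)
  have h7 : (n - 1) ^ 2 < (s + 1) * (n - 1) + a := by
    by_contra h7
    exact hslow (h.persist (not_lt.1 h7) h6)
  obtain ⟨m, rfl⟩ := Nat.exists_eq_add_of_le h2
  have h8 : 2 + m - 1 = m + 1 := by omega
  rw [h8] at h7
  by_cases h9 : s + 1 ≤ m
  · exfalso
    have : (s + 1) * (m + 1) ≤ m * (m + 1) := Nat.mul_le_mul_right _ h9
    nlinarith
  · have h10 : s = m ∨ s = m + 1 := by omega
    rcases h10 with rfl | rfl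
    · have : 0 < a := by
        by_contra h11
        have : a = 0 := by omega
        subst this
        nlinarith
      omega
    · omega

end Pool.Agent.R113.PT
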